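import Mathlib

/-! Definitions for the theorem that almost all elements of a Bohr set are gaps between consecutive
primes. -/

set_option autoImplicit false

namespace Pool.Agent.BS

open Finset Filter MeasureTheory Topology
open scoped Classical

/-- the Borel sets of the unit circle -/
noncomputable instance circleMeas : MeasurableSpace Circle := borel Circle

instance circleBorel : BorelSpace Circle := ⟨rfl⟩

/-- bounded functions -/
def Bdd (f : ℕ → ℝ) : Prop := ∃ C : ℝ, ∀ a, |f a| ≤ C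

/-- A translation invariant mean on the bounded functions. -/
structure IsMean (m : (ℕ → ℝ) → ℝ) : Prop where
  add : ∀ f g, Bdd f → Bdd g → m (fun a => f a + g a) = m f + m g
  smul : ∀ (c : ℝ) (f : ℕ → ℝ), Bdd f → m (fun a => c * f a) = c * m f
  nonneg : ∀ f, Bdd f → (∀ a, 0 ≤ f a) → 0 ≤ m f
  one : m (fun _ => 1) = 1
  shift : ∀ f, Bdd f → ∀ t : ℕ, m (fun a => f (a + t)) = m f

/-- the indicator function of a set -/
noncomputable def ind (S : Set ℕ) (a : ℕ) : ℝ := if a ∈ S then 1 else 0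

/-- `t` lies in the Bohr set of the frequencies in `F` with radius `ρ`. -/
def InBohr (F : Finset Circle) (ρ : ℝ) (t : ℕ) : Prop := ∀ z ∈ F, ‖(z : ℂ) ^ t - 1‖ < ρ

/-- `N` has positive upper Banach density in every Bohr set. -/
def BohrDense (N : Set ℕ) : Prop :=
  ∀ (F : Finset Circle) (ρ : ℝ), 0 < ρ → ∃ η : ℝ, 0 < η ∧ ∀ L : ℕ, ∃ n ≥ L, ∃ x : ℕ,
    η * n < (#{a ∈ Ioc x (x + n) | InBohr F ρ a ∧ a ∈ N} : ℝ)

theorem Bdd.const (c : ℝ) : Bdd (fun _ => c) := ⟨|c|, fun _ => le_rfl⟩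

theorem Bdd.add {f g : ℕ → ℝ} (hf : Bdd f) (hg : Bdd g) : Bdd (fun a => f a + g a) := by
  obtain ⟨C, hC⟩ := hf
  obtain ⟨E, hE⟩ := hg
  exact ⟨C + E, fun a => (abs_add_le _ _).trans (add_le_add (hC a) (hE a))⟩

theorem Bdd.mul {f g : ℕ → ℝ} (hf : Bdd f) (hg : Bdd g) : Bdd (fun a => f a * g a) := by
  obtain ⟨C, hC⟩ := hf
  obtain ⟨E, hE⟩ := hg
  refine ⟨C * E, fun a => ?_⟩
  rw [abs_mul]
  exact mul_le_mul (hC a) (hE a) (abs_nonneg _) ((abs_nonneg _).trans (hC a))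

theorem Bdd.smul {f : ℕ → ℝ} (c : ℝ) (hf : Bdd f) : Bdd (fun a => c * f a) :=
  (Bdd.const c).mul hf

theorem Bdd.shift {f : ℕ → ℝ} (hf : Bdd f) (t : ℕ) : Bdd (fun a => f (a + t)) := by
  obtain ⟨C, hC⟩ := hf
  exact ⟨C, fun a => hC _⟩

theorem Bdd.neg {f : ℕ → ℝ} (hf : Bdd f) : Bdd (fun a => - f a) := by
  obtain ⟨C, hC⟩ := hf
  exact ⟨C, fun a => by rw [abs_neg]; exact hC _⟩

theorem Bdd.sub {f g : ℕ → ℝ} (hf : Bdd f) (hg : Bdd g) : Bdd (fun a => f a - g a) := by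
  simpa only [sub_eq_add_neg] using hf.add hg.neg

theorem Bdd.sum {ι : Type*} (s : Finset ι) {g : ι → ℕ → ℝ} (hg : ∀ i ∈ s, Bdd (g i)) :
    Bdd (fun a => ∑ i ∈ s, g i a) := by
  classical
  induction s using Finset.induction_on with
  | empty => simpa using Bdd.const 0
  | insert i s hi ih =>
    simp only [Finset.sum_insert hi]
    exact (hg i (Finset.mem_insert_self i s)).add
      (ih fun j hj => hg j (Finset.mem_insert_of_mem hj))

theorem Bdd.pow {f : ℕ → ℝ} (hf : Bdd f) (n : ℕ) : Bdd (fun a => f a ^ n) := by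
  obtain ⟨C, hC⟩ := hf
  exact ⟨C ^ n, fun a => by rw [abs_pow]; exact pow_le_pow_left₀ (abs_nonneg _) (hC a) n⟩

theorem bdd_ind (S : Set ℕ) : Bdd (ind S) := by
  refine ⟨1, fun a => ?_⟩
  unfold ind
  split_ifs <;> simp

theorem ind_nonneg (S : Set ℕ) (a : ℕ) : 0 ≤ ind S a := by
  unfold ind
  split_ifs <;> simp

theorem ind_le_one (S : Set ℕ) (a : ℕ) : ind S a ≤ 1 := by
  unfold ind
  split_ifs <;> simp

theorem ind_mul (S T : Set ℕ) (a b : ℕ) (U : Set ℕ) (c : ℕ) (h : c ∈ U ↔ a ∈ S ∧ b ∈ T) :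
    ind S a * ind T b = ind U c := by
  unfold ind
  by_cases ha : a ∈ S <;> by_cases hb : b ∈ T <;> simp [ha, hb, h]

namespace IsMean

variable {m : (ℕ → ℝ) → ℝ} (hm : IsMean m)
include hm

theorem const (c : ℝ) : m (fun _ => c) = c := by
  have h := hm.smul c (fun _ => 1) (Bdd.const 1)
  rw [hm.one, mul_one] at h
  simpa using h

theorem neg {f : ℕ → ℝ} (hf : Bdd f) : m (fun a => - f a) = - m f := by
  have h := hm.smul (-1) f hf
  simpa using h

theorem sub {f g : ℕ → ℝ} (hf : Bdd f) (hg : Bdd g) : m (fun a => f a - g a) = m f - m g := by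
  simp only [sub_eq_add_neg]
  rw [hm.add _ _ hf hg.neg, hm.neg hg]

theorem mono {f g : ℕ → ℝ} (hf : Bdd f) (hg : Bdd g) (h : ∀ a, f a ≤ g a) : m f ≤ m g := by
  have h1 := hm.nonneg _ (hg.sub hf) (fun a => sub_nonneg.2 (h a))
  rw [hm.sub hg hf] at h1
  linarith

theorem sum {ι : Type*} (s : Finset ι) {g : ι → ℕ → ℝ} (hg : ∀ i ∈ s, Bdd (g i)) :
    m (fun a => ∑ i ∈ s, g i a) = ∑ i ∈ s, m (g i) := by
  classical
  induction s using Finset.induction_on with
  | empty => simpa using hm.const 0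
  | insert i s hi ih =>
    simp only [Finset.sum_insert hi]
    rw [hm.add _ _ (hg i (Finset.mem_insert_self i s))
      (Bdd.sum s fun j hj => hg j (Finset.mem_insert_of_mem hj)),
      ih fun j hj => hg j (Finset.mem_insert_of_mem hj)]

theorem sq_le {f : ℕ → ℝ} (hf : Bdd f) : m f ^ 2 ≤ m (fun a => f a ^ 2) := by
  have h1 := hm.nonneg (fun a => f a ^ 2 + ((-2 * m f) * f a + m f ^ 2))
    ((hf.pow 2).add ((hf.smul _).add (Bdd.const _)))
    (fun a => by nlinarith [sq_nonneg (f a - m f)])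
  rw [hm.add _ _ (hf.pow 2) ((hf.smul _).add (Bdd.const _)),
    hm.add _ _ (hf.smul _) (Bdd.const _), hm.smul _ _ hf, hm.const] at h1
  nlinarith

end IsMean

end Pool.Agent.BS
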